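import Pool.Agent.R645.BL.Ord

set_option autoImplicit false

open Set Topology

namespace Pool.Agent.R645.BL

variable {W : Type} [LinearOrder W]

/-- No limit point of the support lies outside `S`. -/
def Tame (S : Set W) (x : W → Bool) : Prop := ∀ δ, δ ∉ S → ¬ Lim x δ

theorem Tame.good {S : Set W} {x : W → Bool} (h : Tame S x) : Good S x :=
  fun δ hδ hL => absurd hL (h δ hδ)

/-- Alive pairs. -/
def Alive (S : Set W) (z : W → Bool) (γ : W) : Prop := ∀ δ, δ ≤ γ → δ ∉ S → ¬ Lim z δ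

/-- Truncation. -/
def trunc (z : W → Bool) (γ : W) : W → Bool := fun ξ => if ξ < γ then z ξ else false

/-- Extension by a single value `1` at `ρ`. -/
def ext (z : W → Bool) (γ ρ : W) : W → Bool := fun ξ => if ξ < γ then z ξ else decide (ξ = ρ)

theorem trunc_lt {z : W → Bool} {γ ξ : W} (h : ξ < γ) : trunc z γ ξ = z ξ := by
  simp [trunc, h]

theorem trunc_ge {z : W → Bool} {γ ξ : W} (h : γ ≤ ξ) : trunc z γ ξ = false := by
  simp [trunc, not_lt.mpr h]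

theorem ext_lt {z : W → Bool} {γ ρ ξ : W} (h : ξ < γ) : ext z γ ρ ξ = z ξ := by
  simp [ext, h]

theorem ext_self {z : W → Bool} {γ ρ : W} (h : γ ≤ ρ) : ext z γ ρ ρ = true := by
  simp [ext, not_lt.mpr h]

theorem ext_ge {z : W → Bool} {γ ρ ξ : W} (h : γ ≤ ξ) (hne : ξ ≠ ρ) : ext z γ ρ ξ = false := by
  simp [ext, not_lt.mpr h, hne]

theorem Alive.trunc {S : Set W} {z : W → Bool} {γ : W} (h : Alive S z γ) :
    Tame S (trunc z γ) := by
  intro δ hδ hL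
  rcases le_or_gt δ γ with h1 | h1
  · exact h δ h1 hδ (hL.congr fun ξ hξ => trunc_lt (hξ.trans_le h1))
  · obtain ⟨ξ, h2, -, h3⟩ := hL.2 γ h1
    rw [trunc_ge h2.le] at h3
    exact absurd h3 (by decide)

theorem Alive.ext {S : Set W} {z : W → Bool} {γ ρ : W} (h : Alive S z γ) (hρ : γ ≤ ρ) :
    Tame S (ext z γ ρ) := by
  intro δ hδ hL
  rcases le_or_gt δ γ with h1 | h1
  · exact h δ h1 hδ (hL.congr fun ξ hξ => ext_lt (hξ.trans_le h1))
  · rcases le_or_gt δ ρ with h4 | h4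
    · obtain ⟨ξ, h2, h5, h3⟩ := hL.2 γ h1
      rw [ext_ge h2.le (h5.trans_le h4).ne] at h3
      exact absurd h3 (by decide)
    · obtain ⟨ξ, h2, h5, h3⟩ := hL.2 ρ h4
      rw [ext_ge (hρ.trans h2.le) h2.ne'] at h3
      exact absurd h3 (by decide)

theorem Tame.alive {S : Set W} {z : W → Bool} (h : Tame S z) (γ : W) : Alive S z γ :=
  fun δ _ hδ => h δ hδ

/-- The cone of all members agreeing with `z` below `γ`. -/
def Cone (S : Set W) (z : W → Bool) (γ : W) : Set (Sp S) := {y | ∀ ξ < γ, y.1 ξ = z ξ}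

theorem cone_mono {S : Set W} {z z' : W → Bool} {γ γ' : W} (h : γ ≤ γ')
    (hz : ∀ ξ < γ, z' ξ = z ξ) : Cone S z' γ' ⊆ Cone S z γ :=
  fun _ hy ξ hξ => (hy ξ (hξ.trans_le h)).trans (hz ξ hξ)

/-- SUB: inclusion of alive cones forces extension. -/
theorem of_cone_sub {S : Set W} {z z' : W → Bool} {γ γ' : W} (h : Alive S z' γ')
    (hsub : Cone S z' γ' ⊆ Cone S z γ) : γ ≤ γ' ∧ ∀ ξ < γ, z' ξ = z ξ := by
  have h1 := hsub (a := ⟨trunc z' γ', h.trunc.good⟩) (fun ξ hξ => trunc_lt hξ)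
  have h2 := hsub (a := ⟨BL.ext z' γ' γ', (h.ext le_rfl).good⟩) (fun ξ hξ => ext_lt hξ)
  have h3 : γ ≤ γ' := by
    by_contra hc
    push Not at hc
    have h4 := h1 γ' hc
    have h5 := h2 γ' hc
    simp only at h4 h5
    rw [trunc_ge le_rfl] at h4
    rw [ext_self le_rfl] at h5
    rw [← h4] at h5
    exact absurd h5 (by decide)
  refine ⟨h3, fun ξ hξ => ?_⟩
  rw [← h1 ξ hξ]
  exact (trunc_lt (hξ.trans_le h3)).symm

section order

variable [WellFoundedLT W] {S : Set W}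

theorem conv {a b y : Sp S} {γ : W} (h1 : a < y) (h2 : y < b) (hab : ∀ ξ < γ, a.1 ξ = b.1 ξ) :
    ∀ ξ < γ, y.1 ξ = a.1 ξ := by
  obtain ⟨ξ, ha, hb, hc⟩ := lt_iff.mp h1
  obtain ⟨ζ, hd, he, hf⟩ := lt_iff.mp h2
  intro η hη
  rcases lt_or_ge η ξ with h | h
  · exact (ha η h).symm
  · exfalso
    have hξγ : ξ < γ := h.trans_lt hη
    rcases lt_trichotomy ζ ξ with h3 | h3 | h3
    · have := hab ζ (h3.trans hξγ)
      rw [ha ζ h3, he, hf] at this
      exact absurd this (by decide)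
    · subst h3
      rw [hc] at he
      exact absurd he (by decide)
    · have := hab ξ hξγ
      rw [hb, ← hd ξ h3, hc] at this
      exact absurd this (by decide)

variable [TopologicalSpace (Sp S)] [OrderTopology (Sp S)]

/-- Alive cones have nonempty interior, provided `W` has no largest element. -/
theorem Alive.interior_nonempty {z : W → Bool} {γ : W} (h : Alive S z γ)
    (hmax : ∃ ρ, γ < ρ) : (interior (Cone S z γ)).Nonempty := by
  obtain ⟨ρ, hρ⟩ := hmax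
  let a : Sp S := ⟨BL.trunc z γ, h.trunc.good⟩
  let b : Sp S := ⟨BL.ext z γ γ, (h.ext le_rfl).good⟩
  let c : Sp S := ⟨BL.ext z γ ρ, (h.ext hρ.le).good⟩
  have hac : a < c := by
    refine lt_iff.mpr ⟨ρ, fun η hη => ?_, trunc_ge hρ.le, ext_self hρ.le⟩
    rcases lt_or_ge η γ with h1 | h1
    · show BL.trunc z γ η = BL.ext z γ ρ η
      rw [trunc_lt h1, ext_lt h1]
    · show BL.trunc z γ η = BL.ext z γ ρ η
      rw [trunc_ge h1, ext_ge h1 hη.ne]
  have hcb : c < b := by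
    refine lt_iff.mpr ⟨γ, fun η hη => ?_, ext_ge le_rfl hρ.ne, ext_self le_rfl⟩
    show BL.ext z γ ρ η = BL.ext z γ γ η
    rw [ext_lt hη, ext_lt hη]
  have hsub : Ioo a b ⊆ Cone S z γ := by
    intro y hy ξ hξ
    rw [conv hy.1 hy.2 (fun ξ hξ => ?_) ξ hξ]
    · exact trunc_lt hξ
    · show BL.trunc z γ ξ = BL.ext z γ γ ξ
      rw [trunc_lt hξ, ext_lt hξ]
  exact ⟨c, interior_maximal hsub isOpen_Ioo ⟨hac, hcb⟩⟩

/-- Key fact on neighbourhoods. -/
theorem nhds_cone [Nonempty W] {z : Sp S} {U : Set (Sp S)} (hU : IsOpen U) (hz : z ∈ U) :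
    ∃ α : W, (∀ γ, α < γ → Cone S z.1 γ ⊆ U) ∧ (∀ δ, δ ∉ S → Lim z.1 δ → α < δ) := by
  have hw0 : ∃ w0 : W, ∀ w, w0 ≤ w := by
    obtain ⟨m, -, hm⟩ := WellFounded.has_min (wellFounded_lt (α := W)) univ univ_nonempty
    exact ⟨m, fun w => not_lt.mp (hm w (mem_univ w))⟩
  obtain ⟨w0, hw0⟩ := hw0
  have hw0L : ∀ δ, Lim z.1 δ → w0 < δ := by
    intro δ hL
    obtain ⟨η, hη⟩ := hL.1
    exact (hw0 η).trans_lt hη
  have hn : U ∈ 𝓝 z := hU.mem_nhds hz
  -- left side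
  have hleft : ∃ α : W, (∀ γ, α < γ → ∀ y ∈ Cone S z.1 γ, y ≤ z → y ∈ U) ∧
      (∀ δ, δ ∉ S → Lim z.1 δ → α < δ) := by
    by_cases hl : ∃ l, l < z
    · obtain ⟨l, hl1, hl2⟩ := exists_Ioc_subset_of_mem_nhds hn hl
      obtain ⟨α, h1, h2, h3⟩ := lt_iff.mp hl1
      refine ⟨α, fun γ hγ y hy hyz => hl2 ⟨?_, hyz⟩, fun δ hδ hL => ?_⟩
      · refine lt_iff.mpr ⟨α, fun η hη => ?_, h2, ?_⟩
        · rw [h1 η hη, hy η (hη.trans hγ)]
        · rw [hy α hγ, h3]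
      · by_contra hc
        push Not at hc
        have := z.2 δ hδ hL α hc
        rw [h3] at this
        exact absurd this (by decide)
    · refine ⟨w0, fun γ _ y _ hyz => ?_, fun δ _ hL => hw0L δ hL⟩
      have : y = z := by
        rcases hyz.lt_or_eq with h | h
        · exact absurd ⟨y, h⟩ hl
        · exact h
      rw [this]
      exact hz
  have hright : ∃ α : W, (∀ γ, α < γ → ∀ y ∈ Cone S z.1 γ, z ≤ y → y ∈ U) ∧
      (∀ δ, δ ∉ S → Lim z.1 δ → α < δ) := by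
    by_cases hl : ∃ l, z < l
    · obtain ⟨l, hl1, hl2⟩ := exists_Ico_subset_of_mem_nhds hn hl
      obtain ⟨α, h1, h2, h3⟩ := lt_iff.mp hl1
      refine ⟨α, fun γ hγ y hy hyz => hl2 ⟨hyz, ?_⟩, fun δ hδ hL => ?_⟩
      · refine lt_iff.mpr ⟨α, fun η hη => ?_, ?_, h3⟩
        · rw [hy η (hη.trans hγ), h1 η hη]
        · rw [hy α hγ, h2]
      · by_contra hc
        push Not at hc
        have := l.2 δ hδ (hL.congr fun ξ hξ => h1 ξ (hξ.trans_le hc)) α hc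
        rw [h3] at this
        exact absurd this (by decide)
    · refine ⟨w0, fun γ _ y _ hyz => ?_, fun δ _ hL => hw0L δ hL⟩
      have : z = y := by
        rcases hyz.lt_or_eq with h | h
        · exact absurd ⟨y, h⟩ hl
        · exact h
      rw [← this]
      exact hz
  obtain ⟨α, ha1, ha2⟩ := hleft
  obtain ⟨β, hb1, hb2⟩ := hright
  refine ⟨max α β, fun γ hγ y hy => ?_, fun δ hδ hL => max_lt (ha2 δ hδ hL) (hb2 δ hδ hL)⟩
  rcases le_total y z with h | h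
  · exact ha1 γ ((le_max_left _ _).trans_lt hγ) y hy h
  · exact hb1 γ ((le_max_right _ _).trans_lt hγ) y hy h

/-- Every nonempty open set contains an alive cone. -/
theorem exists_alive_cone [Nonempty W] (hmax : ∀ γ : W, ∃ ρ, γ < ρ) {U : Set (Sp S)}
    (hU : IsOpen U) (hne : U.Nonempty) : ∃ z γ, Alive S z γ ∧ Cone S z γ ⊆ U := by
  obtain ⟨z, hz⟩ := hne
  obtain ⟨α, h1, h2⟩ := nhds_cone hU hz
  by_cases hb : ∃ δ, δ ∉ S ∧ Lim z.1 δ
  · obtain ⟨δ, ⟨hδ, hL⟩, hmin⟩ :=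
      WellFounded.has_min (wellFounded_lt (α := W)) {δ | δ ∉ S ∧ Lim z.1 δ} hb
    obtain ⟨ξ, h3, h4, -⟩ := hL.2 α (h2 δ hδ hL)
    exact ⟨z.1, ξ, fun δ' h5 h6 h7 => hmin δ' ⟨h6, h7⟩ (h5.trans_lt h4), h1 ξ h3⟩
  · push Not at hb
    obtain ⟨γ, hγ⟩ := hmax α
    exact ⟨z.1, γ, fun δ _ hδ => hb δ hδ, h1 γ hγ⟩

/-- The basic step. -/
theorem exists_step [Nonempty W] (hmax : ∀ γ : W, ∃ ρ, γ < ρ) {z : W → Bool} {γ : W}
    (h : Alive S z γ) (ρ : W) {C : Set (Sp S)} (hC : IsOpen C) :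
    ∃ z' γ', Alive S z' γ' ∧ γ < γ' ∧ ρ < γ' ∧ (∀ ξ < γ, z' ξ = z ξ) ∧
      (Cone S z' γ' ⊆ C ∨ Disjoint (Cone S z' γ') C) := by
  obtain ⟨γ1, h1⟩ := hmax (max γ ρ)
  have h2 : Alive S (BL.trunc z γ) γ1 := h.trunc.alive γ1
  have h3 := h2.interior_nonempty (hmax γ1)
  have key : ∀ U : Set (Sp S), IsOpen U → U.Nonempty → U ⊆ Cone S (BL.trunc z γ) γ1 →
      ∃ z' γ', Alive S z' γ' ∧ γ < γ' ∧ ρ < γ' ∧ (∀ ξ < γ, z' ξ = z ξ) ∧ Cone S z' γ' ⊆ U := by
    intro U hU hne hsub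
    obtain ⟨z', γ', h4, h5⟩ := exists_alive_cone hmax hU hne
    obtain ⟨h6, h7⟩ := of_cone_sub h4 (h5.trans hsub)
    have h8 : γ < γ1 := (le_max_left _ _).trans_lt h1
    refine ⟨z', γ', h4, h8.trans_le h6, ((le_max_right _ _).trans_lt h1).trans_le h6,
      fun ξ hξ => ?_, h5⟩
    rw [h7 ξ (hξ.trans h8), trunc_lt hξ]
  by_cases hd : (interior (Cone S (BL.trunc z γ) γ1) ∩ C).Nonempty
  · obtain ⟨z', γ', h4, h5, h6, h7, h8⟩ := key _ (isOpen_interior.inter hC) hd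
      (inter_subset_left.trans interior_subset)
    exact ⟨z', γ', h4, h5, h6, h7, Or.inl (h8.trans inter_subset_right)⟩
  · obtain ⟨z', γ', h4, h5, h6, h7, h8⟩ := key _ isOpen_interior h3 interior_subset
    refine ⟨z', γ', h4, h5, h6, h7, Or.inr ?_⟩
    rw [Set.not_nonempty_iff_eq_empty] at hd
    exact Set.disjoint_of_subset_left h8 (Set.disjoint_iff_inter_eq_empty.mpr hd)

end order

end Pool.Agent.R645.BL
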