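import Pool.Agent.R645.BL.Cone

set_option autoImplicit false

open Set Topology

namespace Pool.Agent.R645.BL

open Pool.Agent.H748R3

variable {W : Type} [LinearOrder W]

theorem hmax_of (hW : OmegaOneLike W) (γ : W) : ∃ ρ, γ < ρ := by
  obtain ⟨b, hb⟩ := hW.bdd {γ} (countable_singleton γ)
  exact ⟨b, hb γ rfl⟩

theorem nonempty_of (hW : OmegaOneLike W) : Nonempty W := by
  by_contra hn
  rw [not_nonempty_iff] at hn
  exact hW.unc inferInstance

/-- Supports are bounded. -/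
theorem supp_bdd (hW : OmegaOneLike W) {S : Set W} (hS : Stat Sᶜ) (x : Sp S) :
    ∃ α, ∀ ξ, α ≤ ξ → x.1 ξ = false := by
  classical
  by_contra hcon
  push Not at hcon
  have h1 : ∀ t : Finset W, ∃ ξ, (∀ a ∈ t, a < ξ) ∧ x.1 ξ = true := by
    intro t
    obtain ⟨b, hb⟩ := hW.bdd (t : Set W) t.countable_toSet
    obtain ⟨ξ, h2, h3⟩ := hcon b
    refine ⟨ξ, fun a ha => (hb a ha).trans_le h2, ?_⟩
    simpa using h3
  choose h hh1 hh2 using h1
  obtain ⟨δ, hδ, hcl⟩ := hS h
  have hL : Lim x.1 δ := by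
    refine ⟨⟨h ∅, hcl ∅ (by simp)⟩, fun ρ hρ => ⟨h {ρ}, hh1 {ρ} ρ (by simp), hcl {ρ} ?_, hh2 {ρ}⟩⟩
    intro a ha
    rw [Finset.mem_singleton] at ha
    exact ha ▸ hρ
  obtain ⟨ξ, h2, h3⟩ := hcon δ
  exact h3 (x.2 δ hδ hL ξ h2)

/-- The fusion: below every countable family of open sets there is an alive cone deciding all of
them. -/
theorem exists_decide (hW : OmegaOneLike W) [WellFoundedLT W] {S : Set W} (hS : Stat S)
    [TopologicalSpace (Sp S)] [OrderTopology (Sp S)] (C : ℕ → Set (Sp S))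
    (hC : ∀ n, IsOpen (C n)) :
    ∃ z γ, Alive S z γ ∧ ∀ n, Cone S z γ ⊆ C n ∨ Disjoint (Cone S z γ) (C n) := by
  classical
  haveI := nonempty_of hW
  have hmax := hmax_of hW
  let P : Type := {p : (W → Bool) × W // Alive S p.1 p.2}
  have hstep : ∀ (p : P) (n : ℕ) (ρ : W), ∃ q : P, p.1.2 < q.1.2 ∧ ρ < q.1.2 ∧
      (∀ ξ < p.1.2, q.1.1 ξ = p.1.1 ξ) ∧
      (Cone S q.1.1 q.1.2 ⊆ C n ∨ Disjoint (Cone S q.1.1 q.1.2) (C n)) := by
    intro p n ρ
    obtain ⟨z', γ', h1, h2, h3, h4, h5⟩ := exists_step hmax p.2 ρ (hC n)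
    exact ⟨⟨(z', γ'), h1⟩, h2, h3, h4, h5⟩
  choose step hs1 hs2 hs3 hs4 using hstep
  have hp0 : Alive S (fun _ : W => false) (Classical.arbitrary W) := by
    intro δ _ _ hL
    obtain ⟨ρ, hρ⟩ := hL.1
    obtain ⟨ξ, _, _, h⟩ := hL.2 ρ hρ
    simp at h
  let p0 : P := ⟨(fun _ => false, Classical.arbitrary W), hp0⟩
  let st : List W → P := fun l => List.rec p0 (fun ρ l p => step p l.length ρ) l
  have hst0 : st [] = p0 := rfl
  have hst1 : ∀ ρ l, st (ρ :: l) = step (st l) l.length ρ := fun ρ l => rfl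
  -- the bounding function
  have hb : ∀ t : Finset W, ∃ b, ∀ l : List W, (∀ a ∈ l, a ∈ t) → (st l).1.2 < b := by
    intro t
    obtain ⟨b, hb⟩ := hW.bdd (range fun l : List t => (st (l.map Subtype.val)).1.2)
      (countable_range _)
    refine ⟨b, fun l hl => ?_⟩
    have : ∃ l' : List t, l'.map Subtype.val = l := by
      refine ⟨l.attach.map fun a => ⟨a.1, hl a.1 a.2⟩, ?_⟩
      rw [List.map_map]
      exact List.attach_map_subtype_val l
    obtain ⟨l', rfl⟩ := this
    exact hb _ ⟨l', rfl⟩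
  choose h hh using hb
  obtain ⟨δ, hδ, hcl⟩ := hS h
  have hne : (Iio δ).Nonempty := ⟨h ∅, hcl ∅ (by simp)⟩
  obtain ⟨e, he⟩ := (hW.initial δ).exists_eq_range hne
  have heδ : ∀ n, e n < δ := fun n => by
    have : e n ∈ Iio δ := he ▸ mem_range_self n
    exact this
  let L : ℕ → List W := fun n => Nat.rec [] (fun k l => e k :: l) n
  have hL0 : L 0 = [] := rfl
  have hL1 : ∀ n, L (n + 1) = e n :: L n := fun n => rfl
  have hLlen : ∀ n, (L n).length = n := by
    intro n
    induction n with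
    | zero => rfl
    | succ n ih => rw [hL1, List.length_cons, ih]
  have hLmem : ∀ n, ∀ a ∈ L n, a < δ := by
    intro n
    induction n with
    | zero => intro a ha; rw [hL0] at ha; simp at ha
    | succ n ih =>
      intro a ha
      rw [hL1, List.mem_cons] at ha
      rcases ha with rfl | ha
      · exact heδ n
      · exact ih a ha
  let g : ℕ → W := fun n => (st (L n)).1.2
  let z : ℕ → W → Bool := fun n => (st (L n)).1.1
  have hgδ : ∀ n, g n < δ := by
    intro n
    refine (hh (L n).toFinset (L n) (fun a ha => List.mem_toFinset.mpr ha)).trans (hcl _ ?_)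
    intro a ha
    exact hLmem n a (List.mem_toFinset.mp ha)
  have hsucc : ∀ n, st (L (n + 1)) = step (st (L n)) n (e n) := by
    intro n
    rw [hL1, hst1, hLlen]
  have hg1 : ∀ n, g n < g (n + 1) := by
    intro n
    show _ < (st (L (n + 1))).1.2
    rw [hsucc]
    exact hs1 _ _ _
  have hg2 : ∀ n, e n < g (n + 1) := by
    intro n
    show _ < (st (L (n + 1))).1.2
    rw [hsucc]
    exact hs2 _ _ _
  have hz1 : ∀ n, ∀ ξ < g n, z (n + 1) ξ = z n ξ := by
    intro n ξ hξ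
    show (st (L (n + 1))).1.1 ξ = _
    rw [hsucc]
    exact hs3 _ _ _ ξ hξ
  have hdec : ∀ n, Cone S (z (n + 1)) (g (n + 1)) ⊆ C n ∨
      Disjoint (Cone S (z (n + 1)) (g (n + 1))) (C n) := by
    intro n
    show Cone S (st (L (n + 1))).1.1 (st (L (n + 1))).1.2 ⊆ C n ∨
      Disjoint (Cone S (st (L (n + 1))).1.1 (st (L (n + 1))).1.2) (C n)
    rw [hsucc]
    exact hs4 _ _ _
  have hgm : StrictMono g := strictMono_nat_of_lt_succ hg1
  have hzm : ∀ m n, m ≤ n → ∀ ξ < g m, z n ξ = z m ξ := by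
    intro m n hmn
    induction n, hmn using Nat.le_induction with
    | base => intro ξ _; rfl
    | succ n hmn ih =>
      intro ξ hξ
      rw [hz1 n ξ (hξ.trans_le (hgm.monotone hmn)), ih ξ hξ]
  -- the limit
  let t : W → Bool := fun ξ => if hx : ∃ n, ξ < g n then z (Nat.find hx) ξ else false
  have ht : ∀ n, ∀ ξ < g n, t ξ = z n ξ := by
    intro n ξ hξ
    have hx : ∃ n, ξ < g n := ⟨n, hξ⟩
    have h1 : t ξ = z (Nat.find hx) ξ := by
      simp only [t]
      rw [dif_pos hx]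
    rw [h1]
    exact (hzm _ n (Nat.find_min' hx hξ) ξ (Nat.find_spec hx)).symm
  have hcof : ∀ ρ < δ, ∃ n, ρ < g n := by
    intro ρ hρ
    have : ρ ∈ range e := he ▸ hρ
    obtain ⟨n, rfl⟩ := this
    exact ⟨n + 1, hg2 n⟩
  refine ⟨t, δ, ?_, fun n => ?_⟩
  · intro δ' h1 h2 hL
    have h3 : δ' < δ := by
      rcases h1.lt_or_eq with h | h
      · exact h
      · exact absurd (h ▸ hδ) h2
    obtain ⟨n, hn⟩ := hcof δ' h3
    exact (st (L n)).2 δ' hn.le h2 (hL.congr fun ξ hξ => ht n ξ (hξ.trans hn))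
  · have hsub : Cone S t δ ⊆ Cone S (z (n + 1)) (g (n + 1)) :=
      cone_mono (hgδ (n + 1)).le (fun ξ hξ => ht (n + 1) ξ hξ)
    rcases hdec n with h1 | h1
    · exact Or.inl (hsub.trans h1)
    · exact Or.inr (Set.disjoint_of_subset_left hsub h1)

/-- The main theorem for a fixed stationary, co-stationary set. -/
theorem main (hW : OmegaOneLike W) [WellFoundedLT W] {S : Set W} (hS : Stat S) (hS' : Stat Sᶜ)
    [TopologicalSpace (Sp S)] [OrderTopology (Sp S)] (r : W → ℝ) (hr : Function.Injective r) :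
    ∃ f : Sp S → ℝ, ∀ D : Set (Sp S), Dense D → ¬ ContinuousOn f D := by
  classical
  have hb := supp_bdd hW hS'
  choose α hα using hb
  refine ⟨fun x => r (α x), fun D hD hf => ?_⟩
  -- a countable base
  obtain ⟨B, hBc, -, hB⟩ := TopologicalSpace.exists_countable_basis ℝ
  have hBne : B.Nonempty := by
    by_contra hne
    rw [Set.not_nonempty_iff_eq_empty] at hne
    obtain ⟨v, hv, -⟩ := hB.exists_subset_of_mem_open (mem_univ (0 : ℝ)) isOpen_univ
    rw [hne] at hv
    exact hv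
  obtain ⟨O, hO⟩ := hBc.exists_eq_range hBne
  have hOo : ∀ n, IsOpen (O n) := fun n => hB.isOpen (hO ▸ mem_range_self n)
  have hC : ∀ n, ∃ C : Set (Sp S), IsOpen C ∧
      (fun x => r (α x)) ⁻¹' (O n) ∩ D = C ∩ D := by
    intro n
    exact (continuousOn_iff'.mp hf) (O n) (hOo n)
  choose C hCo hCe using hC
  obtain ⟨z, γ, hz, hd⟩ := exists_decide hW hS C hCo
  -- f is constant on the trace of the cone
  have hconst : ∀ x ∈ D, ∀ y ∈ D, x ∈ Cone S z γ → y ∈ Cone S z γ → α x = α y := by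
    intro x hx y hy hxc hyc
    by_contra hne
    have hne' : r (α x) ≠ r (α y) := fun h => hne (hr h)
    obtain ⟨v, hv, hxv, hvs⟩ := hB.exists_subset_of_mem_open
      (show r (α x) ∈ ({r (α y)}ᶜ : Set ℝ) from hne') isOpen_compl_singleton
    rw [hO] at hv
    obtain ⟨n, rfl⟩ := hv
    have h1 : x ∈ C n ∩ D := by
      rw [← hCe n]
      exact ⟨hxv, hx⟩
    have h2 : y ∉ C n := by
      intro h3
      have h4 : y ∈ C n ∩ D := ⟨h3, hy⟩
      rw [← hCe n] at h4
      exact hvs h4.1 rfl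
    rcases hd n with h | h
    · exact h2 (h hyc)
    · exact Set.disjoint_left.mp h hxc h1.1
  haveI := nonempty_of hW
  have hmax := hmax_of hW
  obtain ⟨x0, hx0i, hx0D⟩ := hD.inter_open_nonempty _ isOpen_interior
    (hz.interior_nonempty (hmax γ))
  have hx0 := interior_subset hx0i
  let ρ := max γ (α x0)
  have h1 : Tame S (BL.ext z γ ρ) := hz.ext (le_max_left _ _)
  obtain ⟨ρ', hρ'⟩ := hmax ρ
  obtain ⟨y, hyi, hyD⟩ := hD.inter_open_nonempty _ isOpen_interior
    ((h1.alive ρ').interior_nonempty (hmax ρ'))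
  have hy := interior_subset hyi
  have hγρ : γ ≤ ρ := le_max_left _ _
  have hyz : y ∈ Cone S z γ := by
    intro ξ hξ
    rw [hy ξ ((hξ.trans_le hγρ).trans hρ'), ext_lt hξ]
  have h2 : α y = α x0 := hconst y hyD x0 hx0D hyz hx0
  have h3 : y.1 ρ = true := by
    rw [hy ρ hρ', ext_self hγρ]
  have h4 : y.1 ρ = false := hα y ρ (by rw [h2]; exact le_max_right _ _)
  rw [h3] at h4
  exact absurd h4 (by decide)

theorem exists_inj :
    ∃ r : (Cardinal.aleph.{0} 1).ord.ToType → ℝ, Function.Injective r := by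
  have h : Cardinal.mk (Cardinal.aleph.{0} 1).ord.ToType ≤ Cardinal.mk ℝ := by
    rw [Cardinal.mk_ord_toType, Cardinal.mk_real]
    exact Cardinal.aleph_one_le_continuum
  obtain ⟨e⟩ := h
  exact ⟨e, e.injective⟩

theorem final : ∃ (X : Type) (_ : LinearOrder X) (_ : TopologicalSpace X),
    OrderTopology X ∧ CompactSpace X ∧
      ∃ f : X → ℝ, ∀ D : Set X, Dense D → ¬ ContinuousOn f D := by
  have hW := omegaOneLike_toType
  obtain ⟨S, hS, hS'⟩ := hW.bistationary
  obtain ⟨r, hr⟩ := exists_inj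
  haveI := hW.wf
  letI : TopologicalSpace (Sp S) := Preorder.topology (Sp S)
  haveI : OrderTopology (Sp S) := ⟨rfl⟩
  exact ⟨Sp S, inferInstance, inferInstance, inferInstance, compact_of_lub exists_lub,
    main hW hS hS' r hr⟩

end Pool.Agent.R645.BL
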