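import Mathlib
import Pool.Agent.H748R3.Stat

set_option autoImplicit false

open Set

namespace Pool.Agent.R645.BL

variable {W : Type} [LinearOrder W]

/-- `δ` is a limit point of the support of `x`. -/
def Lim (x : W → Bool) (δ : W) : Prop :=
  (Iio δ).Nonempty ∧ ∀ ρ < δ, ∃ ξ, ρ < ξ ∧ ξ < δ ∧ x ξ = true

/-- `x` vanishes from every limit point of its support outside `S` on. -/
def Good (S : Set W) (x : W → Bool) : Prop :=
  ∀ δ, δ ∉ S → Lim x δ → ∀ ξ, δ ≤ ξ → x ξ = false

/-- The space. -/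
def Sp (S : Set W) : Type := {x : W → Bool // Good S x}

theorem Lim.congr {x y : W → Bool} {δ : W} (h : ∀ ξ < δ, x ξ = y ξ) (hx : Lim x δ) :
    Lim y δ := by
  refine ⟨hx.1, fun ρ hρ => ?_⟩
  obtain ⟨ξ, h1, h2, h3⟩ := hx.2 ρ hρ
  exact ⟨ξ, h1, h2, by rw [← h ξ h2, h3]⟩

section order

variable [WellFoundedLT W] {S : Set W}

noncomputable instance instLO : LinearOrder (Sp S) :=
  LinearOrder.lift' (fun x : Sp S => toLex x.1) (fun x y h => Subtype.ext (toLex_inj.mp h))

theorem lt_iff {x y : Sp S} :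
    x < y ↔ ∃ ξ, (∀ η < ξ, x.1 η = y.1 η) ∧ x.1 ξ = false ∧ y.1 ξ = true := by
  have h : x < y ↔ toLex x.1 < toLex y.1 := Iff.rfl
  rw [h]
  constructor
  · rintro ⟨i, h1, h2⟩
    have h3 : x.1 i < y.1 i := h2
    rw [Bool.lt_iff] at h3
    exact ⟨i, h1, h3.1, h3.2⟩
  · rintro ⟨i, h1, h2, h3⟩
    refine ⟨i, h1, ?_⟩
    show x.1 i < y.1 i
    rw [h2, h3]
    exact Bool.false_lt_true

theorem exists_lub (A : Set (Sp S)) : ∃ s : Sp S, IsLUB A s := by
  let B : Set (Lex (W → Bool)) := (fun x : Sp S => toLex x.1) '' A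
  let x : Lex (W → Bool) := sSup B
  have hx : ∀ ξ, x ξ = true → ∃ a ∈ A, (∀ η < ξ, a.1 η = x η) ∧ a.1 ξ = true := by
    intro ξ h
    by_contra hcon
    push Not at hcon
    have h1 : x ξ = ⨆ e : {e ∈ B | ∀ j < ξ, e j = sSup B j}, e.1 ξ := Pi.Lex.sSup_apply B ξ
    have h2 : x ξ ≤ false := by
      rw [h1]
      refine iSup_le ?_
      rintro ⟨e, ⟨a, ha, rfl⟩, he⟩
      have := hcon a ha he
      simp only [ne_eq, Bool.not_eq_true] at this
      show a.1 ξ ≤ false
      rw [this]
    rw [h] at h2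
    exact absurd h2 (by decide)
  refine ⟨⟨ofLex x, ?_⟩, ?_, ?_⟩
  · intro δ hδ hL ξ hξ
    by_contra hc
    simp only [Bool.not_eq_false] at hc
    obtain ⟨a, -, h1, h2⟩ := hx ξ hc
    have := a.2 δ hδ (hL.congr fun η hη => (h1 η (hη.trans_le hξ)).symm) ξ hξ
    rw [h2] at this
    exact absurd this (by decide)
  · intro a ha
    show toLex a.1 ≤ x
    exact (isLUB_sSup B).1 ⟨a, ha, rfl⟩
  · intro y hy
    show x ≤ toLex y.1
    refine (isLUB_sSup B).2 ?_
    rintro _ ⟨a, ha, rfl⟩
    exact hy ha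

end order

theorem compact_of_lub {X : Type} [LinearOrder X] [TopologicalSpace X] [OrderTopology X]
    (h : ∀ A : Set X, ∃ s, IsLUB A s) : CompactSpace X := by
  classical
  choose s hs using h
  letI : BoundedOrder X :=
    { top := s univ
      le_top := fun a => (hs univ).1 (mem_univ a)
      bot := s ∅
      bot_le := fun a => (hs ∅).2 (by simp [upperBounds]) }
  letI : CompleteLattice X :=
    { (inferInstance : Lattice X), (inferInstance : BoundedOrder X) with
      sSup := s
      sInf := fun A => s (lowerBounds A)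
      isLUB_sSup := fun A => hs A
      isGLB_sInf := fun A => isLUB_lowerBounds.mp (hs _) }
  letI : CompleteLinearOrder X :=
    { (inferInstance : LinearOrder X), (inferInstance : CompleteLattice X),
      LinearOrder.toBiheytingAlgebra X with }
  exact compactSpace_of_completeLinearOrder

end Pool.Agent.R645.BL
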